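import Pool.Agent.X55.Fam.DCor

/-!
# Almost prime twins `n`, `n + 2` with discrete logarithm conditions

Let `P` be a large prime and `g` a primitive root modulo `P`. We consider the twins `n`, `n + 2` for the exponents `n`
* for which the residue of `g ^ n` modulo `P` lies in a given interval (so that `n` is the discrete logarithm of an
  element of an interval); the exponents run over any interval of a length `H < P`, the residues over any interval of a
  length `K ≤ P`, with `H K ≥ P ^ (3 / 2 + ε)`;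
* for which `g ^ n + s` lies in a given coset of a subgroup `S` of the residues, where `|S| H ≥ P ^ (3 / 2 + ε)`;
* for which `g ^ n + s` is again a primitive root, in the intervals of a length `H` with `P ^ (1 / 2 + ε) ≤ H < P`.
Each time the number of the `n` for which all the values have a bounded number of prime factors, all greater than
`P ^ δ`, has the expected order of magnitude `N / log ^ 2 P` (`N` is the expected number of the `n`); the number of the `n`
for which all of them are primes is at most of this order; and the number of the `n` for which they have no prime factor up to `y`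
is given by an asymptotic formula.

The proof combines the fundamental lemma of the sieve, Mertens' theorem for polynomials (both in the starting files) and
estimates of the multiplicative characters over intervals and over shifted subgroups.
-/

set_option autoImplicit false

namespace Pool.Agent.Results.MP_b51559_nt.DiscreteLogarithms

open Finset Polynomial

/-- `m ≠ 0` has at most `r` prime factors, counted with multiplicity, all of them greater than `x`. -/
def AlmostPrime (r : ℕ) (x : ℝ) (m : ℕ) : Prop :=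
  m ≠ 0 ∧ m.primeFactorsList.length ≤ r ∧ ∀ q : ℕ, q.Prime → q ∣ m → x < q

/-- the number of the `n` in `(M, M + H]` with the property `R` for which `n`, `n + 2` are almost primes -/
noncomputable def almost (r : ℕ) (x : ℝ) (M H : ℕ) (R : ℕ → Prop) : ℕ :=
  Set.ncard {n : ℕ | M < n ∧ n ≤ M + H ∧ R n ∧ AlmostPrime r x n ∧ AlmostPrime r x (n + 2)}

/-- the number of the `n` in `(M, M + H]` with the property `R` for which `n`, `n + 2` are primes -/
noncomputable def primes (M H : ℕ) (R : ℕ → Prop) : ℕ :=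
  Set.ncard {n : ℕ | M < n ∧ n ≤ M + H ∧ R n ∧ n.Prime ∧ (n + 2).Prime}

/-- the number of the `n` in `(M, M + H]` with the property `R` for which `n`, `n + 2` have no prime factor up to `y` -/
noncomputable def rough (y M H : ℕ) (R : ℕ → Prop) : ℕ :=
  Set.ncard {n : ℕ | M < n ∧ n ≤ M + H ∧ R n ∧ ∀ q : ℕ, q.Prime → q ≤ y → ¬ q ∣ n ∧ ¬ q ∣ n + 2}

/-- the product over the primes `q ≤ y` of `1 - ν(q) / q`, where `ν(q)` is the number of the residues `a` modulo `q` for
which one of these values is divisible by `q` -/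
noncomputable def V (y : ℕ) : ℝ :=
  ∏ q ∈ (Icc 1 y).filter Nat.Prime, (1 - (Set.ncard {a : ℕ | a < q ∧ (q ∣ a ∨ q ∣ a + 2)} : ℝ) / q)

/-- the bounds for the interval `(M, M + H]` and the property `R`, with the expected number `N` -/
def Bounds (P r : ℕ) (δ c C : ℝ) (B M H : ℕ) (R : ℕ → Prop) (N : ℝ) : Prop :=
  (M + H ≤ P ^ B → c * N / Real.log P ^ 2 ≤ almost r ((P : ℝ) ^ δ) M H R) ∧ (primes M H R : ℝ) ≤ C * N / Real.log P ^ 2

/-- the asymptotic formula for the interval `(M, M + H]` and the property `R`, with the expected number `N` -/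
def Rough (η : ℝ) (M H y : ℕ) (R : ℕ → Prop) (N : ℝ) : Prop :=
  |(rough y M H R : ℝ) - N * V y| ≤ η * (N * V y)

/-- the polynomials -/
noncomputable def f : Fin 2 → ℤ[X] := ![C 1 * X + C 0, C 1 * X + C 2]

/-- their values -/
def G : Fin 2 → ℤ → ℤ := ![fun n => 1 * n + 0, fun n => 1 * n + 2]

/-- the values at natural numbers -/
def F : Fin 2 → ℕ → ℕ := ![fun n => n, fun n => n + 2]

lemma f_eval (i : Fin 2) (n : ℤ) : (f i).eval n = G i n := by
  fin_cases i <;> simp [f, G]

lemma f_deg (i : Fin 2) : (f i).natDegree = (![1, 1] : Fin 2 → ℕ) i := by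
  fin_cases i
  · show (C 1 * X + C 0 : ℤ[X]).natDegree = 1
    exact natDegree_linear (by norm_num)
  · show (C 1 * X + C 2 : ℤ[X]).natDegree = 1
    exact natDegree_linear (by norm_num)

lemma f_sys : Pool.Agent.X55.Fam.Sys 2 f := by
  refine Pool.Agent.X55.Fam.Sys.mk' ?_ ?_ ?_ 2 ?_ ?_
  · intro i
    fin_cases i
    · show Irreducible (C 1 * X + C 0 : ℤ[X])
      exact Pool.Agent.X55.Fam.lin_irr _ _ (by norm_num) (fun d h1 h2 => isUnit_of_dvd_one (by have := dvd_add (h1.mul_left (1)) (h2.mul_left (-1)); norm_num at this; exact this))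
    · show Irreducible (C 1 * X + C 2 : ℤ[X])
      exact Pool.Agent.X55.Fam.lin_irr _ _ (by norm_num) (fun d h1 h2 => isUnit_of_dvd_one (by have := dvd_add (h1.mul_left (-1)) (h2.mul_left (1)); norm_num at this; exact this))
  · intro i
    rw [f_deg]
    fin_cases i <;> norm_num
  · intro i j hij
    fin_cases i <;> fin_cases j <;>
      first
      | exact absurd rfl hij
      | exact Pool.Agent.X55.Fam.not_assoc 0 (by rw [f_eval, f_eval]; norm_num [G])
  · simp [Fin.sum_univ_succ, f_deg]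
  · intro p hp hp2
    interval_cases p
    · exact absurd hp (by norm_num)
    · exact absurd hp (by norm_num)
    · exact ⟨1, fun i => by rw [f_eval]; fin_cases i <;> norm_num [G]⟩

lemma hF (i : Fin 2) (n : ℕ) : ((f i).eval (n : ℤ)).natAbs = F i n := by
  rw [f_eval]
  fin_cases i
  · show (1 * (n : ℤ) + 0).natAbs = n
    rw [show (1 * (n : ℤ) + 0) = ((n : ℕ) : ℤ) by push_cast; ring, Int.natAbs_natCast]
  · show (1 * (n : ℤ) + 2).natAbs = n + 2
    rw [show (1 * (n : ℤ) + 2) = ((n + 2 : ℕ) : ℤ) by push_cast; ring, Int.natAbs_natCast]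

lemma conv {P r : ℕ} {δ c C : ℝ} {B M H : ℕ} {R : ℕ → Prop} {N : ℝ}
    (h : Pool.Agent.X55.Fam.Both F P r δ c C B M H R N) : Bounds P r δ c C B M H R N := by
  unfold Pool.Agent.X55.Fam.Both at h
  simpa [Bounds, almost, primes, AlmostPrime, F, Pool.Agent.X55.Fam.Good, Fin.forall_fin_succ] using h

lemma convA {η : ℝ} {M H y : ℕ} {R : ℕ → Prop} {N : ℝ}
    (h : Pool.Agent.X55.Fam.Asym F η M H y R N) : Rough η M H y R N := by
  unfold Pool.Agent.X55.Fam.Asym at h
  simpa [Rough, rough, V, F, Fin.forall_fin_succ, Fin.exists_fin_succ] using h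

theorem result :
    (∀ ε : ℝ, 0 < ε → ∀ B : ℕ, ∃ (r : ℕ) (δ c C : ℝ) (P₀ : ℕ), 0 < δ ∧ 0 < c ∧ 0 < C ∧
      ∀ P : ℕ, P₀ ≤ P → ∀ [Fact P.Prime] (g : ZMod P), orderOf g = P - 1 →
      -- the residue of `g ^ n` in an interval
      (∀ M H L K : ℕ, H ≤ P - 1 → K ≤ P → (P : ℝ) ^ (3 / 2 + ε) ≤ (H : ℝ) * K →
        Bounds P r δ c C B M H (fun n => ∃ m : ℕ, L < m ∧ m ≤ L + K ∧ g ^ n = m) (K * H / P)) ∧
      -- `g ^ n + s` in a coset of a subgroup
      (∀ (S : Subgroup (ZMod P)ˣ) (b : (ZMod P)ˣ) (s : ZMod P), s ≠ 0 → ∀ M H : ℕ, H ≤ P - 1 →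
        (P : ℝ) ^ (3 / 2 + ε) ≤ (Nat.card S : ℝ) * H →
        Bounds P r δ c C B M H (fun n => ∃ u ∈ S, g ^ n + s = (b : ZMod P) * (u : ZMod P))
          (Nat.card S * H / P)) ∧
      -- `g ^ n + s` a primitive root
      (∀ s : ZMod P, s ≠ 0 → ∀ M H : ℕ, H ≤ P - 1 → (P : ℝ) ^ (1 / 2 + ε) ≤ H →
        Bounds P r δ c C B M H (fun n => orderOf (g ^ n + s) = P - 1) ((P - 1).totient * H / P))) ∧
    -- the asymptotic formulas
    (∀ ε η : ℝ, 0 < ε → 0 < η → ∃ (δ : ℝ) (P₀ : ℕ), 0 < δ ∧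
      ∀ P : ℕ, P₀ ≤ P → ∀ [Fact P.Prime] (g : ZMod P), orderOf g = P - 1 →
      ∀ y : ℕ, 3 ≤ y → (y : ℝ) ≤ (P : ℝ) ^ δ →
      (∀ M H L K : ℕ, H ≤ P - 1 → K ≤ P → (P : ℝ) ^ (3 / 2 + ε) ≤ (H : ℝ) * K →
        Rough η M H y (fun n => ∃ m : ℕ, L < m ∧ m ≤ L + K ∧ g ^ n = m) (K * H / P)) ∧
      (∀ (S : Subgroup (ZMod P)ˣ) (b : (ZMod P)ˣ) (s : ZMod P), s ≠ 0 → ∀ M H : ℕ, H ≤ P - 1 →
        (P : ℝ) ^ (3 / 2 + ε) ≤ (Nat.card S : ℝ) * H →
        Rough η M H y (fun n => ∃ u ∈ S, g ^ n + s = (b : ZMod P) * (u : ZMod P)) (Nat.card S * H / P)) ∧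
      (∀ s : ZMod P, s ≠ 0 → ∀ M H : ℕ, H ≤ P - 1 → (P : ℝ) ^ (1 / 2 + ε) ≤ H →
        Rough η M H y (fun n => orderOf (g ^ n + s) = P - 1) ((P - 1).totient * H / P))) := by
  constructor
  · intro ε hε B
    obtain ⟨r, δ, c, C, P₀, hδ, hc, hC, h⟩ := Pool.Agent.X55.Fam.dlog_cor f_sys F hF ε hε B
    refine ⟨r, δ, c, C, P₀, hδ, hc, hC, ?_⟩
    intro P hP _ g hg
    obtain ⟨h1, h2, h3⟩ := h P hP g hg
    exact ⟨fun M H L K hH hK hHK => conv (h1 M H L K hH hK hHK),
      fun S b s hs M H hH hSH => conv (h2 S b s hs M H hH hSH),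
      fun s hs M H hH hPH => conv (h3 s hs M H hH hPH)⟩
  · intro ε η hε hη
    obtain ⟨δ, P₀, hδ, h⟩ := Pool.Agent.X55.Fam.dlog_corA f_sys F hF ε η hε hη
    refine ⟨δ, P₀, hδ, ?_⟩
    intro P hP _ g hg y hy hyP
    obtain ⟨h1, h2, h3⟩ := h P hP g hg y hy hyP
    exact ⟨fun M H L K hH hK hHK => convA (h1 M H L K hH hK hHK),
      fun S b s hs M H hH hSH => convA (h2 S b s hs M H hH hSH),
      fun s hs M H hH hPH => convA (h3 s hs M H hH hPH)⟩

end Pool.Agent.Results.MP_b51559_nt.DiscreteLogarithms
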