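import Mathlib
import Pool.Agent.X34.E.E14
import Pool.Agent.X34.E.E4

/-!
# A gap at most 212 between two primes of `(n + 4, 3 (n + 4))`

The question is whether every interval `(n + 4, 2 ^ (n + 4))` contains a prime `p` such that `p + 2` is prime.
We prove that for all large `n` the interval `(n + 4, 3 (n + 4))` contains at least `c n / (log n) ^ 45` primes
`p` for which the next prime is `p + h` with one and the same `h ≤ 212` (depending on `n`), and the same in every
reduced residue class modulo `q`, with `h` a multiple of `lcm (2, q)` which is at most `106 lcm (2, q)`.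
-/

set_option autoImplicit false

open Finset Filter

namespace Pool.Agent.Results.MP_b51559_nt.FactorThree

/-- `p ≡ a (mod q)`, `p` and `p + h` are prime, and there is no prime between them -/
def Follow (q a h p : ℕ) : Prop := p ≡ a [MOD q] ∧ p.Prime ∧ (p + h).Prime ∧ ∀ m, p < m → m < p + h → ¬ m.Prime

/-- For all `q ≥ 1` and `a` prime to `q` there is `c > 0` such that for all large `n` there is `1 ≤ k ≤ 106`
such that for at least `c n / (log n) ^ 45` primes `p ≡ a (mod q)` with `n + 4 < p` the next prime is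
`p + k lcm (2, q)`, and `p + k lcm (2, q) < 3 (n + 4)`. -/
theorem result (q a : ℕ) (hq : 1 ≤ q) (ha : a.Coprime q) :
    ∃ c : ℝ, 0 < c ∧ ∀ᶠ n : ℕ in atTop, ∃ k : ℕ, 1 ≤ k ∧ k ≤ 106 ∧ c * n / Real.log n ^ 45 ≤
      (Set.ncard {p : ℕ | n + 4 < p ∧ p + k * Nat.lcm 2 q < 3 * (n + 4) ∧
        Follow q a (k * Nat.lcm 2 q) p} : ℝ) := by
  obtain ⟨c, hc, h⟩ := Pool.Agent.X34.E.gaps_window Pool.Agent.X34.E.dhl45R q a hq ha
  refine ⟨c / 2 ^ 45, by positivity, ?_⟩
  have ht : Tendsto (fun n : ℕ => (n : ℝ) + 4) atTop atTop :=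
    tendsto_atTop_add_const_right _ _ tendsto_natCast_atTop_atTop
  filter_upwards [ht.eventually h, eventually_ge_atTop 5] with n hn hn4
  obtain ⟨k, hk1, hk2, hn⟩ := hn
  refine ⟨k, hk1, hk2, ?_⟩
  have hnr : (5 : ℝ) ≤ n := by exact_mod_cast hn4
  have hl : 0 < Real.log n := Real.log_pos (by linarith)
  have hl2 : Real.log ((n : ℝ) + 4) ≤ 2 * Real.log n := by
    have h1 : (n : ℝ) + 4 ≤ (n : ℝ) ^ 2 := by nlinarith
    calc Real.log ((n : ℝ) + 4) ≤ Real.log ((n : ℝ) ^ 2) := Real.log_le_log (by linarith) h1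
      _ = 2 * Real.log n := by rw [Real.log_pow]; norm_num
  have hl3 : 0 < Real.log ((n : ℝ) + 4) := Real.log_pos (by linarith)
  have h1 : c / 2 ^ 45 * n / Real.log n ^ 45 ≤ c * (n + 4) / Real.log ((n : ℝ) + 4) ^ 45 := by
    have h2 : Real.log ((n : ℝ) + 4) ^ 45 ≤ 2 ^ 45 * Real.log n ^ 45 := by
      rw [← mul_pow]
      exact pow_le_pow_left₀ hl3.le hl2 45
    calc c / 2 ^ 45 * n / Real.log n ^ 45 = c * n / (2 ^ 45 * Real.log n ^ 45) := by
          field_simp
      _ ≤ c * (n + 4) / Real.log ((n : ℝ) + 4) ^ 45 := by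
          apply div_le_div₀ (by positivity) (by nlinarith) (by positivity) h2
  refine h1.trans (hn.trans ?_)
  rw [Nat.cast_le]
  apply Set.ncard_le_ncard
  · rintro p ⟨h3, h4, h5⟩
    refine ⟨?_, ?_, h5⟩
    · exact_mod_cast h3
    · exact_mod_cast h4
  · exact (Set.finite_Iio (3 * (n + 4))).subset fun p hp => by
      have := hp.2.1
      show p < 3 * (n + 4)
      omega

end Pool.Agent.Results.MP_b51559_nt.FactorThree
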